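import Pool.Agent.H76.GH.Targets

/-!
Row ITR of the board ghw: the iteration of the convolutions.
-/

set_option autoImplicit false

namespace Pool.Agent.H17.GH

open MeasureTheory Pool.Agent.H34.GM Pool.Agent.H34.GZ Pool.Agent.H34.GU Pool.Agent.H34.GA
open Pool.Agent.H23.GB Pool.Agent.H76.GH

/-- the constant of one step -/
noncomputable def E0 (m K : ℕ) : ℝ := 2 * Real.exp (m / 2) * Real.exp (m + K)

theorem E0_ge (m K : ℕ) : 1 ≤ E0 m K := by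
  unfold E0
  have h1 : 1 ≤ Real.exp ((m : ℝ) / 2) := Real.one_le_exp (by positivity)
  have h2 : 1 ≤ Real.exp ((m : ℝ) + K) := Real.one_le_exp (by positivity)
  nlinarith

theorem itr_step (hCHI : T_CHI) (hCVA : T_CVA) (hCVB : T_CVB) (hCVW : T_CVW) (hCVF : T_CVF) :
    ∃ c : ℝ, 0 < c ∧ ∀ (m K : ℕ), 1 ≤ m → m * (m + 2) ≤ K → ∀ (q : ℕ),
    ∀ (a : Fin q → ℂ) (N d M B r0 : ℝ) (lam : ℕ → ℂ) (ψ ψ' : ℝ → ℂ),
    1 ≤ N → 0 < d → 0 ≤ M → 1 ≤ r0 →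
    Wc m ψ lam → ContinuousOn ψ' (Set.Ioi 0) →
    (∀ r : ℝ, 0 < r → ψ r ≠ 0 → r0⁻¹ ≤ r ∧ r ≤ r0) →
    (∀ r : ℝ, 0 < r → ‖ψ' r‖ ≤ M * min 1 ((r / d) ^ K)) →
    (∀ n : ℕ, 1 ≤ n → ‖(n : ℂ) ^ (((m : ℂ) - 1) / 2) * lam n‖ ≤ B * (n : ℝ) ^ m) →
    (∀ r : ℝ, 0 < r → thA m ψ lam r = ((r ^ (m ^ 2) * N ^ (-((m : ℝ) / 2)) : ℝ) : ℂ) *
      (starRingEnd ℂ) (thA m ψ' lam (N ^ (1 / (m : ℝ)) / r))) →
    ∃ (φ φ' : ℝ → ℂ) (ρ : ℝ → ℝ), Wc m φ lam ∧ ContinuousOn φ' (Set.Ioi 0) ∧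
    (∀ r : ℝ, 0 < r → φ r ≠ 0 → (3 ^ q * r0)⁻¹ ≤ r ∧ r ≤ 3 ^ q * r0) ∧
    (∀ r : ℝ, 0 < r → ‖φ' r‖ ≤ E0 m K ^ q * M * min 1 ((r / d) ^ K)) ∧
    (∀ r : ℝ, 0 < r → thA m φ lam r = ((r ^ (m ^ 2) * N ^ (-((m : ℝ) / 2)) : ℝ) : ℂ) *
      (starRingEnd ℂ) (thA m φ' lam (N ^ (1 / (m : ℝ)) / r))) ∧
    (∀ t : ℝ, ‖MelA m φ (1 / 2 + t * Complex.I)‖ =
      ρ t * ‖MelA m ψ (1 / 2 + t * Complex.I)‖) ∧
    (∀ t : ℝ, ‖MelA m φ' (1 / 2 + t * Complex.I)‖ =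
      ρ t * ‖MelA m ψ' (1 / 2 + t * Complex.I)‖) ∧
    ∀ t : ℝ, 0 ≤ ρ t ∧ c ^ q * ∏ i, min 1 ‖(1 / 2 + t * Complex.I : ℂ) - a i‖ ≤
      ρ t * ∏ i, ‖(1 / 2 + t * Complex.I : ℂ) - a i‖ ∧
      ρ t * ∏ i, ‖(1 / 2 + t * Complex.I : ℂ) - a i‖ ≤ 2 ^ q := by
  obtain ⟨c, hc, hch⟩ := hCHI
  refine ⟨c, hc, ?_⟩
  intro m K hm hK q
  induction q with
  | zero =>
    intro a N d M B r0 lam ψ ψ' hN hd hM hr0 hW hψ' hs hb hl hfe
    refine ⟨ψ, ψ', fun _ => 1, hW, hψ', ?_, ?_, hfe, ?_, ?_, ?_⟩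
    · intro r hr hne
      simpa using hs r hr hne
    · intro r hr
      simpa using hb r hr
    · intro t
      rw [one_mul]
    · intro t
      rw [one_mul]
    · intro t
      simp
  | succ q ih =>
    intro a N d M B r0 lam ψ ψ' hN hd hM hr0 hW hψ' hs hb hl hfe
    obtain ⟨φ, φ', ρ, hWφ, hcφ', hsφ, hbφ, hfeφ, hM1, hM2, hρ⟩ :=
      ih (fun i => a i.succ) N d M B r0 lam ψ ψ' hN hd hM hr0 hW hψ' hs hb hl hfe
    obtain ⟨hHk, hLh⟩ := hch m (a 0) hm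
    have hE0 : 0 ≤ E0 m K := zero_le_one.trans (E0_ge m K)
    have hMq : 0 ≤ E0 m K ^ q * M := mul_nonneg (pow_nonneg hE0 q) hM
    have hrq : 1 ≤ 3 ^ q * r0 := by
      have h1 : (1 : ℝ) ≤ 3 ^ q := one_le_pow₀ (by norm_num)
      nlinarith
    obtain ⟨-, ha2, ha3⟩ := hCVA m (ha m (a 0)) (Real.exp (m / 2)) hm hHk φ (3 ^ q * r0) hrq
      hWφ.cont hsφ
    obtain ⟨hb1, hb2, hb3⟩ := hCVB m K (ha m (a 0)) (Real.exp (m / 2)) hm hK hHk φ'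
      (E0 m K ^ q * M) d hMq hd hcφ' hbφ
    have hw := hCVW m (ha m (a 0)) (Real.exp (m / 2)) hm hHk φ lam hWφ
    have hf := hCVF m K (ha m (a 0)) (Real.exp (m / 2)) hm hK hHk N d (E0 m K ^ q * M) B
      (3 ^ q * r0) lam φ φ' hN hd hMq hrq hWφ.cont hcφ' hsφ hbφ hl hfeφ
    refine ⟨cv m (ha m (a 0)) φ, cw m (ha m (a 0)) φ',
      fun t => ‖Lh m (ha m (a 0)) (1 / 2 + t * Complex.I)‖ * ρ t, hw, hb1, ?_, ?_, hf, ?_, ?_, ?_⟩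
    · intro r hr hne
      have h1 := ha2 r hr hne
      have e1 : (3 : ℝ) * (3 ^ q * r0) = 3 ^ (q + 1) * r0 := by ring
      rwa [e1] at h1
    · intro r hr
      refine (hb2 r hr).trans (le_of_eq ?_)
      rw [pow_succ]
      unfold E0
      ring
    · intro t
      rw [ha3, norm_mul, hM1 t, mul_assoc]
    · intro t
      rw [hb3 t, hM2 t, mul_assoc]
    · intro t
      obtain ⟨h0, h1, h2⟩ := hρ t
      obtain ⟨h3, h4⟩ := hLh t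
      refine ⟨mul_nonneg (norm_nonneg _) h0, ?_, ?_⟩
      · rw [Fin.prod_univ_succ, Fin.prod_univ_succ]
        have h5 : 0 ≤ c ^ q * ∏ i : Fin q, min 1 ‖(1 / 2 + t * Complex.I : ℂ) - a i.succ‖ := by
          refine mul_nonneg (by positivity) (Finset.prod_nonneg fun i _ => ?_)
          exact le_min zero_le_one (norm_nonneg _)
        have h6 : 0 ≤ ‖Lh m (ha m (a 0)) (1 / 2 + t * Complex.I)‖ *
            ‖(1 / 2 + t * Complex.I : ℂ) - a 0‖ := by positivity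
        have h7 := mul_le_mul h3 h1 h5 h6
        calc c ^ (q + 1) * (min 1 ‖(1 / 2 + t * Complex.I : ℂ) - a 0‖ *
              ∏ i : Fin q, min 1 ‖(1 / 2 + t * Complex.I : ℂ) - a i.succ‖) =
            c * min 1 ‖(1 / 2 + t * Complex.I : ℂ) - a 0‖ *
              (c ^ q * ∏ i : Fin q, min 1 ‖(1 / 2 + t * Complex.I : ℂ) - a i.succ‖) := by ring
          _ ≤ _ := h7
          _ = _ := by ring
      · rw [Fin.prod_univ_succ]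
        have h5 : 0 ≤ ρ t * ∏ i : Fin q, ‖(1 / 2 + t * Complex.I : ℂ) - a i.succ‖ :=
          mul_nonneg h0 (Finset.prod_nonneg fun i _ => norm_nonneg _)
        have h7 := mul_le_mul h4 h2 h5 (by norm_num : (0 : ℝ) ≤ 2)
        calc ‖Lh m (ha m (a 0)) (1 / 2 + t * Complex.I)‖ * ρ t *
              (‖(1 / 2 + t * Complex.I : ℂ) - a 0‖ *
                ∏ i : Fin q, ‖(1 / 2 + t * Complex.I : ℂ) - a i.succ‖) =
            ‖Lh m (ha m (a 0)) (1 / 2 + t * Complex.I)‖ *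
              ‖(1 / 2 + t * Complex.I : ℂ) - a 0‖ *
              (ρ t * ∏ i : Fin q, ‖(1 / 2 + t * Complex.I : ℂ) - a i.succ‖) := by ring
          _ ≤ 2 * 2 ^ q := h7
          _ = 2 ^ (q + 1) := by ring

theorem pf_ITR (hCHI : T_CHI) (hCVA : T_CVA) (hCVB : T_CVB) (hCVW : T_CVW) (hCVF : T_CVF) :
    T_ITR := by
  obtain ⟨c, hc, h⟩ := itr_step hCHI hCVA hCVB hCVW hCVF
  refine ⟨c, hc, ?_⟩
  intro m K q hm hK
  exact ⟨E0 m K ^ q, one_le_pow₀ (E0_ge m K), h m K hm hK q⟩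

end Pool.Agent.H17.GH
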